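import Mathlib
import Pool.Agent.Lib.Helper35.Tiling.Pack

set_option autoImplicit false

/-!
# A rotund and smooth normed space that is tiled by balls

We construct an infinite dimensional real normed space whose norm is both rotund (strictly
convex) and smooth (Gateaux smooth) and which admits a tiling by closed balls.
-/

namespace Pool.Agent.Results.MP_2a41cd_an.RotundSmoothTiling

open Filter Topology Pool.Agent.Lib.Helper35.Tiling

/-- The norm of `X` is rotund (strictly convex): `‖x‖ = ‖y‖ = 1` and `x ≠ y` imply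
`‖(x + y) / 2‖ < 1`. -/
def RotundNorm (X : Type*) [NormedAddCommGroup X] [NormedSpace ℝ X] : Prop :=
  ∀ x y : X, ‖x‖ = 1 → ‖y‖ = 1 → x ≠ y → ‖(1 / 2 : ℝ) • (x + y)‖ < 1

/-- The norm of `X` is smooth (Gateaux smooth): every `x` in the unit sphere has exactly one
norm-one continuous linear functional `f` with `f x = 1`. -/
def SmoothNorm (X : Type*) [NormedAddCommGroup X] [NormedSpace ℝ X] : Prop :=
  ∀ x : X, ‖x‖ = 1 → ∃! f : X →L[ℝ] ℝ, ‖f‖ = 1 ∧ f x = 1

/-- `T`, a set of pairs (centre, radius), gives a tiling of `X` by balls: all radii are positive,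
the closed balls cover `X`, and the interiors of different members are disjoint. -/
def IsTilingByBalls {X : Type*} [NormedAddCommGroup X] [NormedSpace ℝ X] (T : Set (X × ℝ)) :
    Prop :=
  (∀ p ∈ T, 0 < p.2) ∧ (⋃ p ∈ T, Metric.closedBall p.1 p.2) = Set.univ ∧
    ∀ p ∈ T, ∀ q ∈ T, p ≠ q →
      Disjoint (interior (Metric.closedBall p.1 p.2)) (interior (Metric.closedBall q.1 q.2))

/-! ### The space -/

theorem card_EE : Cardinal.mk ℝ = Cardinal.mk (EE ℝ) := by
  rw [Cardinal.mk_finsupp_of_infinite, Cardinal.mk_finsupp_of_infinite]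
  simp [Cardinal.mk_real, Cardinal.aleph0_le_continuum]

noncomputable section

/-- a bijection of the index set with the points of the space -/
def aa : ℝ ≃ EE ℝ := (Cardinal.eq.1 card_EE).some

/-- The underlying vector space. -/
def XX : Type := EE ℝ

instance : AddCommGroup XX := inferInstanceAs (AddCommGroup (EE ℝ))

instance : Module ℝ XX := inferInstanceAs (Module ℝ (EE ℝ))

instance : Norm XX := ⟨fun y => N (CC aa) (show EE ℝ from y)⟩

theorem norm_def (y : XX) : ‖y‖ = N (CC aa) (show EE ℝ from y) := rfl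

theorem core : NormedSpace.Core ℝ XX where
  norm_nonneg y := N_nonneg _
  norm_smul c y := by
    rw [Real.norm_eq_abs]
    exact N_smul c _
  norm_triangle y z := N_add_le (CC_adm aa) _ _
  norm_eq_zero_iff y := ⟨fun h => N_eq_zero (CC_adm aa) _ h, fun h => by rw [h]; exact N_zero⟩

instance : NormedAddCommGroup XX := NormedAddCommGroup.ofCore core

instance : NormedSpace ℝ XX := NormedSpace.ofCore core

theorem rotund : RotundNorm XX := by
  intro x y hx hy hne
  have h := N_strict (CC_adm aa) x y hx hy hne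
  rw [norm_smul]
  have h2 : ‖x + y‖ < 2 := h
  norm_num
  linarith

theorem smooth : SmoothNorm XX := by
  intro x hx
  have hx0 : x ≠ 0 := by
    intro h
    rw [h, norm_zero] at hx
    norm_num at hx
  obtain ⟨f, hf1, hf2⟩ := exists_dual_vector ℝ x (by rw [hx]; norm_num)
  have hf3 : f x = 1 := by rw [hf2, hx]; rfl
  refine ⟨f, ⟨hf1, hf3⟩, ?_⟩
  -- uniqueness
  have key : ∀ g g' : XX →L[ℝ] ℝ, (‖g‖ = 1 ∧ g x = 1) → (‖g'‖ = 1 ∧ g' x = 1) →
      ∀ h : XX, g h ≤ g' h := by
    intro g g' hg hg' h
    apply le_of_forall_pos_le_add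
    intro ε hε
    have hev := N_smooth (CC_adm aa) x h hx0 ε hε
    obtain ⟨s, hs, hs0⟩ := (hev.and self_mem_nhdsWithin).exists
    have hs0' : 0 < s := hs0
    have h1 : ‖x + s • h‖ + ‖x - s • h‖ ≤ 2 * ‖x‖ + ε * s := hs
    have h2 : g (x + s • h) ≤ ‖x + s • h‖ := by
      have := g.le_opNorm (x + s • h)
      rw [hg.1, one_mul] at this
      exact (le_abs_self _).trans this
    have h3 : g' (x - s • h) ≤ ‖x - s • h‖ := by
      have := g'.le_opNorm (x - s • h)
      rw [hg'.1, one_mul] at this
      exact (le_abs_self _).trans this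
    rw [map_add, map_smul, hg.2, smul_eq_mul] at h2
    rw [map_sub, map_smul, hg'.2, smul_eq_mul] at h3
    rw [hx] at h1
    have h4 : s * g h ≤ s * (g' h + ε) := by linarith
    exact le_of_mul_le_mul_left h4 hs0'
  intro g hg
  ext h
  exact le_antisymm (key g f hg ⟨hf1, hf3⟩ h) (key f g ⟨hf1, hf3⟩ hg h)

/-- a coordinate functional -/
def coord (n : ℕ) : XX →ₗ[ℝ] ℝ where
  toFun y := (show EE ℝ from y) n 0
  map_add' _ _ := rfl
  map_smul' _ _ := rfl

/-- a sequence of basis vectors -/
def bv (n : ℕ) : XX := (Finsupp.single n (Finsupp.single (0:ℝ) (1:ℝ)) : EE ℝ)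

theorem coord_bv (n m : ℕ) : coord n (bv m) = if m = n then 1 else 0 := by
  change (Finsupp.single m (Finsupp.single (0:ℝ) (1:ℝ)) : EE ℝ) n 0 = _
  rw [Finsupp.single_apply]
  split_ifs <;> simp

theorem infinite_dim : ¬ FiniteDimensional ℝ XX := by
  intro hfin
  have hli : LinearIndependent ℝ bv := by
    rw [linearIndependent_iff']
    intro s g hg n hn
    have h2 := congrArg (coord n) hg
    rw [map_sum, map_zero] at h2
    simp only [map_smul, coord_bv, smul_eq_mul, mul_ite, mul_one, mul_zero] at h2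
    rw [Finset.sum_ite_eq' s n g, if_pos hn] at h2
    exact h2
  have : Finite ℕ := hli.finite
  exact not_finite ℕ

theorem tiling : IsTilingByBalls (X := XX) (TT aa : Set (XX × ℝ)) := by
  refine ⟨fun p hp => TT_pos aa p hp, ?_, ?_⟩
  · rw [Set.eq_univ_iff_forall]
    intro y
    obtain ⟨p, hp, hpy⟩ := TT_cover aa y
    simp only [Set.mem_iUnion]
    refine ⟨p, hp, ?_⟩
    rw [Metric.mem_closedBall, dist_eq_norm]
    exact hpy
  · intro p hp q hq hne
    have hp0 := TT_pos aa p hp
    have hq0 := TT_pos aa q hq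
    rw [interior_closedBall _ hp0.ne', interior_closedBall _ hq0.ne']
    apply Metric.ball_disjoint_ball
    rw [dist_eq_norm]
    exact TT_pack aa p hp q hq hne

/-- **Theorem.** There is an infinite dimensional real normed space whose norm is both rotund and
smooth and which admits a tiling by balls. -/
theorem result : ∃ (X : Type) (_ : NormedAddCommGroup X) (_ : NormedSpace ℝ X),
    ¬ FiniteDimensional ℝ X ∧ RotundNorm X ∧ SmoothNorm X ∧
      ∃ T : Set (X × ℝ), IsTilingByBalls T :=
  ⟨XX, inferInstance, inferInstance, infinite_dim, rotund, smooth, TT aa, tiling⟩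

end

end Pool.Agent.Results.MP_2a41cd_an.RotundSmoothTiling
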